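import Pool.Agent.Helper75.L3V.ML
import Pool.Agent.Helper67.LB.Bus

/-!
Log-concavity in three variables (MP_10bc19): three moving strips in any dimension.
-/

open MeasureTheory Module Set Filter Topology
open scoped ENNReal Pointwise

namespace Pool.Agent.Helper75.L3V

open Pool.Agent.Helper96.LB3

variable {X κ : Type} [NormedAddCommGroup X] [NormedSpace ℝ X] [FiniteDimensional ℝ X]
  [MeasurableSpace X] [BorelSpace X]

/-- The coordinates on the range of the moving functionals. -/
noncomputable def cy [Fintype κ] (a : κ → X →ₗ[ℝ] ℝ) (u : κ) :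
    LinearMap.range (LinearMap.pi a) →ₗ[ℝ] ℝ :=
  (LinearMap.proj u).comp (LinearMap.range (LinearMap.pi a)).subtype

omit [MeasurableSpace X] [BorelSpace X] in
theorem exists_split [Fintype κ] (a : κ → X →ₗ[ℝ] ℝ) :
    ∃ (k : ℕ) (L : (LinearMap.range (LinearMap.pi a) × (Fin k → ℝ)) ≃ₗ[ℝ] X),
      ∀ (y : LinearMap.range (LinearMap.pi a)) (z : Fin k → ℝ) (u : κ),
        a u (L (y, z)) = cy a u y := by
  set π : X →ₗ[ℝ] (κ → ℝ) := LinearMap.pi a with hπ
  obtain ⟨s, hs⟩ := π.rangeRestrict.exists_rightInverse_of_surjective π.range_rangeRestrict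
  have hs' : ∀ y, π (s y) = (y : κ → ℝ) := by
    intro y
    have h := congrArg (fun f => ((f y : LinearMap.range π) : κ → ℝ)) hs
    simpa using h
  set N := LinearMap.ker π with hN
  have e : (Fin (finrank ℝ N) → ℝ) ≃ₗ[ℝ] N := (Module.finBasis ℝ N).equivFun.symm
  have he : ∀ z, π (e z : X) = 0 := fun z => (e z).2
  let L0 : (LinearMap.range π × (Fin (finrank ℝ N) → ℝ)) →ₗ[ℝ] X :=
    s.comp (LinearMap.fst ℝ _ _) + (N.subtype.comp e.toLinearMap).comp (LinearMap.snd ℝ _ _)
  have hL0 : ∀ y z, L0 (y, z) = s y + (e z : X) := fun y z => rfl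
  have hπL : ∀ y z, π (L0 (y, z)) = (y : κ → ℝ) := by
    intro y z
    rw [hL0, map_add, hs', he, add_zero]
  have hinj : Function.Injective L0 := by
    rw [← LinearMap.ker_eq_bot, LinearMap.ker_eq_bot']
    rintro ⟨y, z⟩ h
    have h1 : (y : κ → ℝ) = 0 := by rw [← hπL y z, h, map_zero]
    have h2 : y = 0 := Subtype.ext h1
    have h3 : (e z : X) = 0 := by
      have := hL0 y z
      rw [h, h2, map_zero, zero_add] at this
      exact this.symm
    have h4 : e z = 0 := Subtype.ext h3
    have h5 : z = 0 := (LinearEquiv.map_eq_zero_iff e).1 h4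
    rw [h2, h5]
    rfl
  have hsurj : Function.Surjective L0 := by
    intro x
    set y : LinearMap.range π := ⟨π x, LinearMap.mem_range_self π x⟩ with hy
    have h1 : x - s y ∈ N := by
      rw [hN, LinearMap.mem_ker, map_sub, hs', sub_self]
    refine ⟨(y, e.symm ⟨x - s y, h1⟩), ?_⟩
    rw [hL0, LinearEquiv.apply_symm_apply]
    simp
  refine ⟨finrank ℝ N, LinearEquiv.ofBijective L0 ⟨hinj, hsurj⟩, fun y z u => ?_⟩
  exact congrFun (hπL y z) u

theorem gl (μ : Measure X) [μ.IsAddHaarMeasure] [Fintype κ]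
    (a : κ → X →ₗ[ℝ] ℝ) (hdim : finrank ℝ (LinearMap.range (LinearMap.pi a)) ≤ 3) {f : X → ℝ≥0∞} (hf : Measurable f) (hfe : ∀ x, f (-x) = f x)
    (hfl : LCf f) {l m : ℝ} (hl : 0 < l) (hm : 0 < m) (hlm : l + m = 1) (σ τ : κ → ℝ) :
    (∫⁻ x in KS a fun u => Real.exp (σ u), f x ∂μ) ^ l *
      (∫⁻ x in KS a fun u => Real.exp (τ u), f x ∂μ) ^ m ≤
      ∫⁻ x in KS a fun u => Real.exp (l * σ u + m * τ u), f x ∂μ := by
  have hsplit := exists_split a
  set Y := LinearMap.range (LinearMap.pi a) with hYdef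
  obtain ⟨k, L, hL⟩ := hsplit
  set ν : Measure Y := Measure.addHaar with hν
  let Lc : (Y × (Fin k → ℝ)) ≃L[ℝ] X := L.toContinuousLinearEquiv
  have hLc : ∀ p, Lc p = L p := fun p => rfl
  let μ' : Measure (Y × (Fin k → ℝ)) := μ.map Lc.symm
  have : μ'.IsAddHaarMeasure := Lc.symm.isAddHaarMeasure_map μ
  let π0 : Measure (Y × (Fin k → ℝ)) := ν.prod (volume : Measure (Fin k → ℝ))
  have : π0.IsAddHaarMeasure := inferInstance
  have h1 : μ' = Measure.addHaarScalarFactor μ' π0 • π0 :=
    Measure.isAddLeftInvariant_eq_smul μ' π0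
  set c : ℝ≥0∞ := (Measure.addHaarScalarFactor μ' π0 : ℝ≥0∞) with hc
  have hLm : Measurable (fun p : Y × (Fin k → ℝ) => L p) := Lc.continuous.measurable
  -- the marginal
  set φ : Y → ℝ≥0∞ := fun y => ∫⁻ z : Fin k → ℝ, f (L (y, z)) with hφ
  have hφm : Measurable φ := (hf.comp hLm).lintegral_prod_right'
  have hφe : ∀ y, φ (-y) = φ y := by
    intro y
    have h2 : ∀ z : Fin k → ℝ, f (L (-y, z)) = f (L (y, -z)) := by
      intro z
      rw [← hfe (L (y, -z)), ← map_neg]
      congr 2
      ext <;> simp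
    simp only [hφ, h2]
    exact Helper67.LB.lintegral_neg_pi fun z => f (L (y, z))
  have hφl : LCf φ := by
    intro l m hl hm hlm y y'
    refine Helper67.LB.pl_pi k ((hf.comp hLm).comp measurable_prodMk_left)
      ((hf.comp hLm).comp measurable_prodMk_left) ((hf.comp hLm).comp measurable_prodMk_left)
      hl hm hlm fun z z' => ?_
    have h2 := hfl l m hl hm hlm (L (y, z)) (L (y', z'))
    rw [← map_smul, ← map_smul, ← map_add] at h2
    exact h2
  have hsep : Sep (cy a) := by
    intro y hy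
    exact Subtype.ext (funext fun u => hy u)
  have hKY : ∀ h : κ → ℝ, MeasurableSet (KS (cy a) h) := by
    intro h
    have : KS (cy a) h = ⋂ u, {y | |cy a u y| ≤ h u} := by ext y; simp [KS]
    rw [this]
    refine MeasurableSet.iInter fun u => ?_
    apply IsClosed.measurableSet
    exact isClosed_le (LinearMap.continuous_of_finiteDimensional (cy a u)).abs continuous_const
  have hKX : ∀ h : κ → ℝ, MeasurableSet (KS a h) := by
    intro h
    have : KS a h = ⋂ u, {y | |a u y| ≤ h u} := by ext y; simp [KS]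
    rw [this]
    refine MeasurableSet.iInter fun u => ?_
    apply IsClosed.measurableSet
    exact isClosed_le (LinearMap.continuous_of_finiteDimensional (a u)).abs continuous_const
  have key : ∀ h : κ → ℝ, ∫⁻ x in KS a h, f x ∂μ = c * ∫⁻ y in KS (cy a) h, φ y ∂ν := by
    intro h
    have e1 : μ = μ'.map Lc := by
      change μ = (μ.map Lc.symm).map Lc
      rw [Measure.map_map Lc.continuous.measurable Lc.symm.continuous.measurable]
      have : (Lc : Y × (Fin k → ℝ) → X) ∘ (Lc.symm : X → Y × (Fin k → ℝ)) = id := by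
        ext x; simp
      rw [this, Measure.map_id]
    have e2 : ∫⁻ x in KS a h, f x ∂μ = ∫⁻ p, (KS a h).indicator f (L p) ∂μ' := by
      rw [← lintegral_indicator (hKX h)]
      conv_lhs => rw [e1]
      rw [lintegral_map (hf.indicator (hKX h)) Lc.continuous.measurable]
      rfl
    have e3 : ∫⁻ p, (KS a h).indicator f (L p) ∂μ'
        = c * ∫⁻ p, (KS a h).indicator f (L p) ∂π0 := by
      conv_lhs => rw [h1]
      exact lintegral_smul_measure _ _
    have e4 : ∫⁻ p, (KS a h).indicator f (L p) ∂π0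
        = ∫⁻ y, (∫⁻ z : Fin k → ℝ, (KS a h).indicator f (L (y, z))) ∂ν :=
      lintegral_prod (fun p => (KS a h).indicator f (L p))
        ((hf.indicator (hKX h)).comp hLm).aemeasurable
    rw [e2, e3, e4, ← lintegral_indicator (hKY h)]
    congr 1
    refine lintegral_congr fun y => ?_
    by_cases hy : y ∈ KS (cy a) h
    · rw [indicator_of_mem hy]
      refine lintegral_congr fun z => ?_
      have : L (y, z) ∈ KS a h := fun u => by rw [hL]; exact hy u
      rw [indicator_of_mem this]
    · rw [indicator_of_notMem hy]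
      have : ∀ z : Fin k → ℝ, (KS a h).indicator f (L (y, z)) = 0 := by
        intro z
        rw [indicator_of_notMem]
        intro hz
        apply hy
        intro u
        have := hz u
        rwa [hL] at this
      simp only [this, lintegral_zero]
  rw [key, key, key]
  have main := ml ν (cy a) hsep hdim hφm hφe hφl hl hm hlm σ τ
  rw [ENNReal.mul_rpow_of_nonneg _ _ hl.le, ENNReal.mul_rpow_of_nonneg _ _ hm.le,
    mul_mul_mul_comm, ← ENNReal.rpow_add_of_nonneg _ _ hl.le hm.le, hlm, ENNReal.rpow_one]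
  exact mul_le_mul' le_rfl main

end Pool.Agent.Helper75.L3V
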