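import Pool.Agent.Helper96.LB3.Main

/-!
Log-concavity in three variables (MP_10bc19): the log-Brunn-Minkowski inequality for
intersections of strips with general symmetric convex sets, in dimension at most three.
-/

open MeasureTheory Module Set Filter Topology
open scoped ENNReal Pointwise

namespace Pool.Agent.Helper75.L3V

open Pool.Agent.Helper96.LB3

variable {Y κ : Type} [NormedAddCommGroup Y] [NormedSpace ℝ Y] [FiniteDimensional ℝ Y]
  [MeasurableSpace Y] [BorelSpace Y]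

/-- Log-Brunn-Minkowski in dimension at most three with all weights, extended nonnegative form. -/
theorem lbm_weights (ν : Measure Y) [ν.IsAddHaarMeasure] {ι : Type} [Fintype ι]
    (φ : ι → Y →ₗ[ℝ] ℝ) (hφ : Sep φ) (hY : finrank ℝ Y ≤ 3) {l m : ℝ} (hl : 0 < l) (hm : 0 < m)
    (hlm : l + m = 1) (σ τ : ι → ℝ) :
    ν (KS φ fun u => Real.exp (σ u)) ^ l * ν (KS φ fun u => Real.exp (τ u)) ^ m ≤
      ν (KS φ fun u => Real.exp (l * σ u + m * τ u)) := by
  have h := Helper32.LB3.st_MID h_POS Y ι ν φ hφ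
    (fun hp hm h1 h2 => lbm_low hY Y ι ν φ rfl hφ hp hm h1 h2) l m hl hm hlm σ τ
  have hfin : ∀ s : ι → ℝ, ν (KS φ fun u => Real.exp (s u)) ≠ ∞ := fun s =>
    (h_POS Y ι ν φ _ hφ fun u => Real.exp_pos _).2.2.2.ne
  have h2 : (ν (KS φ fun u => Real.exp (σ u)) ^ l * ν (KS φ fun u => Real.exp (τ u)) ^ m).toReal
      ≤ (ν (KS φ fun u => Real.exp (l * σ u + m * τ u))).toReal := by
    rw [ENNReal.toReal_mul, ← ENNReal.toReal_rpow, ← ENNReal.toReal_rpow]
    exact h
  exact (ENNReal.toReal_le_toReal (ENNReal.mul_ne_top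
    (ENNReal.rpow_ne_top_of_nonneg hl.le (hfin _)) (ENNReal.rpow_ne_top_of_nonneg hm.le (hfin _)))
    (hfin _)).1 h2

/-- The support function. -/
noncomputable def sup (M : Set Y) (f : Y →L[ℝ] ℝ) : ℝ := sSup (f '' M)

omit [FiniteDimensional ℝ Y] [MeasurableSpace Y] [BorelSpace Y] in
theorem abs_le_sup {M : Set Y} (hb : Bornology.IsBounded M) (hs : ∀ x ∈ M, -x ∈ M)
    (f : Y →L[ℝ] ℝ) {x : Y} (hx : x ∈ M) : |f x| ≤ sup M f := by
  have hbdd : BddAbove (f '' M) := by
    obtain ⟨R, hR⟩ := hb.exists_norm_le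
    refine ⟨‖f‖ * R, ?_⟩
    rintro _ ⟨y, hy, rfl⟩
    refine (le_abs_self _).trans ?_
    have h1 := f.le_opNorm y
    rw [Real.norm_eq_abs] at h1
    exact h1.trans (mul_le_mul_of_nonneg_left (hR y hy) (norm_nonneg _))
  rw [abs_le]
  constructor
  · have h1 : f (-x) ≤ sup M f := le_csSup hbdd ⟨-x, hs x hx, rfl⟩
    rw [map_neg] at h1
    linarith
  · exact le_csSup hbdd ⟨x, hx, rfl⟩

theorem sup_pos (ν : Measure Y) [ν.IsAddHaarMeasure] {M : Set Y} (hb : Bornology.IsBounded M)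
    (hs : ∀ x ∈ M, -x ∈ M) (hM : ν M ≠ 0) {f : Y →L[ℝ] ℝ} (hf : f ≠ 0) : 0 < sup M f := by
  by_contra hneg
  push Not at hneg
  apply hM
  have hsub : M ⊆ (LinearMap.ker (f : Y →ₗ[ℝ] ℝ) : Set Y) := by
    intro x hx
    have h1 := abs_le_sup hb hs f hx
    have h2 : |f x| = 0 := le_antisymm (h1.trans hneg) (abs_nonneg _)
    exact abs_eq_zero.1 h2
  refine measure_mono_null hsub (Measure.addHaar_submodule ν _ ?_)
  intro htop
  apply hf
  ext x
  have : x ∈ LinearMap.ker (f : Y →ₗ[ℝ] ℝ) := by rw [htop]; trivial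
  exact this

open Classical in
theorem kc (ν : Measure Y) [ν.IsAddHaarMeasure] [Fintype κ] (a : κ → Y →ₗ[ℝ] ℝ) (ha : Sep a)
    (hY : finrank ℝ Y ≤ 3) {A B C : Set Y} (hA : Convex ℝ A) (hB : Convex ℝ B)
    (hAs : ∀ x ∈ A, -x ∈ A) (hBs : ∀ x ∈ B, -x ∈ B) {l m : ℝ} (hl : 0 < l) (hm : 0 < m)
    (hlm : l + m = 1) (hC : ∀ x ∈ A, ∀ y ∈ B, l • x + m • y ∈ C) (σ τ : κ → ℝ) :
    ν ((KS a fun u => Real.exp (σ u)) ∩ A) ^ l * ν ((KS a fun u => Real.exp (τ u)) ∩ B) ^ m ≤
      ν ((KS a fun u => Real.exp (l * σ u + m * τ u)) ∩ C) := by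
  set M1 : Set Y := (KS a fun u => Real.exp (σ u)) ∩ A with hM1
  set M2 : Set Y := (KS a fun u => Real.exp (τ u)) ∩ B with hM2
  by_cases h10 : ν M1 = 0
  · rw [h10, ENNReal.zero_rpow_of_pos hl, zero_mul]; exact bot_le
  by_cases h20 : ν M2 = 0
  · rw [h20, ENNReal.zero_rpow_of_pos hm, mul_zero]; exact bot_le
  have hKs : ∀ s : κ → ℝ, IsCompact (KS a fun u => Real.exp (s u)) ∧
      Convex ℝ (KS a fun u => Real.exp (s u)) := fun s =>
    ⟨(h_POS Y κ ν a _ ha fun u => Real.exp_pos _).1,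
      (h_POS Y κ ν a _ ha fun u => Real.exp_pos _).2.1⟩
  have hb1 : Bornology.IsBounded M1 := (hKs σ).1.isBounded.subset inter_subset_left
  have hb2 : Bornology.IsBounded M2 := (hKs τ).1.isBounded.subset inter_subset_left
  have hc1 : Convex ℝ M1 := (hKs σ).2.inter hA
  have hc2 : Convex ℝ M2 := (hKs τ).2.inter hB
  have hKsym : ∀ (h : κ → ℝ) (x : Y), x ∈ KS a h → -x ∈ KS a h := by
    intro h x hx u
    rw [map_neg, abs_neg]
    exact hx u
  have hs1 : ∀ x ∈ M1, -x ∈ M1 := fun x hx => ⟨hKsym _ x hx.1, hAs x hx.2⟩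
  have hs2 : ∀ x ∈ M2, -x ∈ M2 := fun x hx => ⟨hKsym _ x hx.1, hBs x hx.2⟩
  have hne1 : M1.Nonempty := nonempty_of_measure_ne_zero h10
  have hne2 : M2.Nonempty := nonempty_of_measure_ne_zero h20
  -- countably many half spaces
  set U : (Y →L[ℝ] ℝ) → Set Y := fun f => {x | l * sup M1 f + m * sup M2 f < f x} with hU
  have hUo : ∀ f, IsOpen (U f) := fun f => isOpen_lt continuous_const f.continuous
  obtain ⟨T, hTc, hT⟩ := TopologicalSpace.isOpen_iUnion_countable U hUo
  obtain ⟨ξ, hξ⟩ := (hTc.insert (0 : Y →L[ℝ] ℝ)).exists_eq_range (insert_nonempty _ _)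
  set H1 : ℕ → ℝ := fun i => if ξ i = 0 then 1 else sup M1 (ξ i) with hH1
  set H2 : ℕ → ℝ := fun i => if ξ i = 0 then 1 else sup M2 (ξ i) with hH2
  have hH1p : ∀ i, 0 < H1 i := by
    intro i
    by_cases h : ξ i = 0
    · simp [hH1, h]
    · simp only [hH1, h, if_false]
      exact sup_pos ν hb1 hs1 h10 h
  have hH2p : ∀ i, 0 < H2 i := by
    intro i
    by_cases h : ξ i = 0
    · simp [hH2, h]
    · simp only [hH2, h, if_false]
      exact sup_pos ν hb2 hs2 h20 h
  have hle1 : ∀ i, ∀ x ∈ M1, |ξ i x| ≤ H1 i := by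
    intro i x hx
    by_cases h : ξ i = 0
    · simp [hH1, h]
    · simp only [hH1, h, if_false]
      exact abs_le_sup hb1 hs1 _ hx
  have hle2 : ∀ i, ∀ x ∈ M2, |ξ i x| ≤ H2 i := by
    intro i x hx
    by_cases h : ξ i = 0
    · simp [hH2, h]
    · simp only [hH2, h, if_false]
      exact abs_le_sup hb2 hs2 _ hx
  -- the outer bodies
  set W : ℕ → Set Y := fun N => (KS a fun u => Real.exp (l * σ u + m * τ u)) ∩
    {x | ∀ i < N, |ξ i x| ≤ Real.exp (l * Real.log (H1 i) + m * Real.log (H2 i))} with hW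
  have hfam : ∀ N : ℕ, ν M1 ^ l * ν M2 ^ m ≤ ν (W N) := by
    intro N
    set φ : κ ⊕ Fin N → Y →ₗ[ℝ] ℝ := Sum.elim a fun i => (ξ i : Y →ₗ[ℝ] ℝ) with hφ
    have hsep : Sep φ := fun x hx => ha x fun u => hx (Sum.inl u)
    have key := lbm_weights ν φ hsep hY hl hm hlm (Sum.elim σ fun i => Real.log (H1 i))
      (Sum.elim τ fun i => Real.log (H2 i))
    have e1 : M1 ⊆ KS φ fun u => Real.exp (Sum.elim σ (fun i : Fin N => Real.log (H1 i)) u) := by
      intro x hx
      rintro (u | i)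
      · exact hx.1 u
      · simp only [hφ, Sum.elim_inr]
        rw [Real.exp_log (hH1p i)]
        exact hle1 i x hx
    have e2 : M2 ⊆ KS φ fun u => Real.exp (Sum.elim τ (fun i : Fin N => Real.log (H2 i)) u) := by
      intro x hx
      rintro (u | i)
      · exact hx.1 u
      · simp only [hφ, Sum.elim_inr]
        rw [Real.exp_log (hH2p i)]
        exact hle2 i x hx
    have e3 : (KS φ fun u => Real.exp (l * Sum.elim σ (fun i : Fin N => Real.log (H1 i)) u +
        m * Sum.elim τ (fun i : Fin N => Real.log (H2 i)) u)) ⊆ W N := by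
      intro x hx
      refine ⟨fun u => hx (Sum.inl u), fun i hi => ?_⟩
      exact hx (Sum.inr ⟨i, hi⟩)
    calc ν M1 ^ l * ν M2 ^ m ≤ _ := mul_le_mul' (ENNReal.rpow_le_rpow (measure_mono e1) hl.le)
          (ENNReal.rpow_le_rpow (measure_mono e2) hm.le)
      _ ≤ _ := key
      _ ≤ ν (W N) := measure_mono e3
  have hWanti : Antitone W := by
    intro N N' hN x hx
    exact ⟨hx.1, fun i hi => hx.2 i (hi.trans_le hN)⟩
  have hWclosed : ∀ N, IsClosed (W N) := by
    intro N
    refine ((hKs fun u => l * σ u + m * τ u).1.isClosed).inter ?_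
    have : {x : Y | ∀ i < N, |ξ i x| ≤ Real.exp (l * Real.log (H1 i) + m * Real.log (H2 i))}
        = ⋂ i, ⋂ (_ : i < N), {x : Y | |ξ i x| ≤
          Real.exp (l * Real.log (H1 i) + m * Real.log (H2 i))} := by
      ext x; simp
    rw [this]
    exact isClosed_iInter fun i => isClosed_iInter fun _ =>
      isClosed_le (ξ i).continuous.abs continuous_const
  have hlim : ν M1 ^ l * ν M2 ^ m ≤ ν (⋂ N, W N) := by
    have h1 := tendsto_measure_iInter_atTop (μ := ν) (s := W)
      (fun N => (hWclosed N).measurableSet.nullMeasurableSet) hWanti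
      ⟨0, ((measure_mono inter_subset_left).trans_lt
        (hKs fun u => l * σ u + m * τ u).1.measure_lt_top).ne⟩
    exact ge_of_tendsto' h1 hfam
  -- the inclusion
  set N : Set Y := l • M1 + m • M2 with hN
  have hNc : Convex ℝ N := (hc1.smul l).add (hc2.smul m)
  have hincl : (⋂ k, W k) ⊆ (KS a fun u => Real.exp (l * σ u + m * τ u)) ∩ closure N := by
    intro x hx
    have hx0 := mem_iInter.1 hx
    refine ⟨(hx0 0).1, ?_⟩
    by_contra hxN
    obtain ⟨f, u, hf1, hf2⟩ := geometric_hahn_banach_closed_point hNc.closure isClosed_closure hxN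
    have hxU : x ∈ U f := by
      have hsup : l * sup M1 f + m * sup M2 f ≤ u := by
        have h1 : ∀ y ∈ M2, l * sup M1 f + m * f y ≤ u := by
          intro y hy
          have h2 : sup M1 f ≤ (u - m * f y) / l := by
            apply csSup_le (hne1.image _)
            rintro _ ⟨z, hz, rfl⟩
            rw [le_div_iff₀ hl]
            have h3 := hf1 (l • z + m • y)
              (subset_closure (add_mem_add (smul_mem_smul_set hz) (smul_mem_smul_set hy)))
            rw [map_add, map_smul, map_smul, smul_eq_mul, smul_eq_mul] at h3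
            linarith
          rw [le_div_iff₀ hl] at h2
          linarith
        have h2 : sup M2 f ≤ (u - l * sup M1 f) / m := by
          apply csSup_le (hne2.image _)
          rintro _ ⟨y, hy, rfl⟩
          rw [le_div_iff₀ hm]
          have := h1 y hy
          linarith
        rw [le_div_iff₀ hm] at h2
        linarith
      exact lt_of_le_of_lt hsup hf2
    have hxT : x ∈ ⋃ g ∈ T, U g := by
      rw [hT]
      exact mem_iUnion.2 ⟨f, hxU⟩
    obtain ⟨g, hgT, hgx⟩ := mem_iUnion₂.1 hxT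
    obtain ⟨i, hi⟩ : g ∈ range ξ := by
      rw [← hξ]
      exact mem_insert_of_mem _ hgT
    have hgx' : l * sup M1 g + m * sup M2 g < g x := hgx
    have hxi := (hx0 (i + 1)).2 i (Nat.lt_succ_self i)
    by_cases hg0 : g = 0
    · have h1 : 0 ≤ sup M1 g := by
        obtain ⟨y, hy⟩ := hne1
        exact (abs_nonneg _).trans (abs_le_sup hb1 hs1 g hy)
      have h2 : 0 ≤ sup M2 g := by
        obtain ⟨y, hy⟩ := hne2
        exact (abs_nonneg _).trans (abs_le_sup hb2 hs2 g hy)
      have h3 : g x = 0 := by rw [hg0]; rfl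
      rw [h3] at hgx'
      have h4 := mul_nonneg hl.le h1
      have h5 := mul_nonneg hm.le h2
      linarith
    · have hi0 : ξ i ≠ 0 := by rw [hi]; exact hg0
      have e1 : H1 i = sup M1 g := by
        rw [← hi]
        exact if_neg hi0
      have e2 : H2 i = sup M2 g := by
        rw [← hi]
        exact if_neg hi0
      have p1 : 0 < sup M1 g := e1 ▸ hH1p i
      have p2 : 0 < sup M2 g := e2 ▸ hH2p i
      rw [e1, e2, Real.exp_add, mul_comm l, mul_comm m, ← Real.rpow_def_of_pos p1,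
        ← Real.rpow_def_of_pos p2, hi] at hxi
      have h1 := Real.geom_mean_le_arith_mean2_weighted hl.le hm.le p1.le p2.le hlm
      have h2 := le_abs_self (g x)
      linarith
  refine hlim.trans ((measure_mono hincl).trans ?_)
  have h1 : (KS a fun u => Real.exp (l * σ u + m * τ u)) ∩ closure N ⊆
      ((KS a fun u => Real.exp (l * σ u + m * τ u)) ∩ N) ∪ frontier N := by
    rintro x ⟨hx1, hx2⟩
    by_cases hx : x ∈ interior N
    · exact Or.inl ⟨hx1, interior_subset hx⟩
    · exact Or.inr ⟨hx2, hx⟩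
  refine (measure_mono h1).trans ((measure_union_le _ _).trans ?_)
  rw [hNc.addHaar_frontier ν, add_zero]
  apply measure_mono
  rintro x ⟨hx1, hx2⟩
  refine ⟨hx1, ?_⟩
  obtain ⟨_, ⟨y, hy, rfl⟩, _, ⟨z, hz, rfl⟩, rfl⟩ := hx2
  exact hC y hy.2 z hz.2

end Pool.Agent.Helper75.L3V
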