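import Pool.Agent.Helper75.L3V.KC
import Pool.Agent.Helper67.LB.PLn

/-!
Log-concavity in three variables (MP_10bc19): even log-concave densities in dimension at most
three.
-/

open MeasureTheory Module Set Filter Topology
open scoped ENNReal Pointwise

namespace Pool.Agent.Helper75.L3V

open Pool.Agent.Helper96.LB3

theorem layer {α : Type} [MeasurableSpace α] (μ : Measure α) {f : α → ℝ≥0∞} (hf : Measurable f)
    (hft : ∀ x, f x ≠ ∞) :
    ∫⁻ x, f x ∂μ = ∫⁻ v : ℝ, ENNReal.ofReal (Real.exp v) *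
      μ {x | ENNReal.ofReal (Real.exp v) ≤ f x} := by
  have h1 := lintegral_eq_lintegral_meas_le μ (f := fun x => (f x).toReal)
    (Eventually.of_forall fun x => ENNReal.toReal_nonneg) hf.ennreal_toReal.aemeasurable
  simp only [ENNReal.ofReal_toReal (hft _)] at h1
  rw [h1, ← Real.range_exp, ← image_univ,
    lintegral_image_eq_lintegral_abs_deriv_mul MeasurableSet.univ
      (fun x _ => (Real.hasDerivAt_exp x).hasDerivWithinAt) Real.exp_injective.injOn,
    Measure.restrict_univ]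
  refine lintegral_congr fun v => ?_
  rw [abs_of_pos (Real.exp_pos v)]
  congr 2
  ext x
  simp only [Set.mem_ofPred_eq]
  rw [ENNReal.ofReal_le_iff_le_toReal (hft x)]

theorem measurable_layer {α : Type} [MeasurableSpace α] (μ : Measure α) (f : α → ℝ≥0∞) :
    Measurable fun v : ℝ => ENNReal.ofReal (Real.exp v) *
      μ {x | ENNReal.ofReal (Real.exp v) ≤ f x} := by
  refine Measurable.mul (by fun_prop) ?_
  apply Antitone.measurable
  intro v w hvw
  apply measure_mono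
  intro x hx
  exact (ENNReal.ofReal_le_ofReal (Real.exp_le_exp.2 hvw)).trans hx

variable {Y κ : Type} [NormedAddCommGroup Y] [NormedSpace ℝ Y] [FiniteDimensional ℝ Y]
  [MeasurableSpace Y] [BorelSpace Y]

/-- Log-concave functions with values in `[0, ∞]`. -/
def LCf {X : Type} [AddCommGroup X] [Module ℝ X] (f : X → ℝ≥0∞) : Prop :=
  ∀ l m : ℝ, 0 < l → 0 < m → l + m = 1 → ∀ x y, f x ^ l * f y ^ m ≤ f (l • x + m • y)

theorem exp_rpow (v l : ℝ) :
    ENNReal.ofReal (Real.exp v) ^ l = ENNReal.ofReal (Real.exp (l * v)) := by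
  rw [ENNReal.ofReal_rpow_of_pos (Real.exp_pos _), ← Real.exp_mul, mul_comm]

theorem exp_mix (v w l m : ℝ) :
    ENNReal.ofReal (Real.exp v) ^ l * ENNReal.ofReal (Real.exp w) ^ m =
      ENNReal.ofReal (Real.exp (l * v + m * w)) := by
  rw [exp_rpow, exp_rpow, ← ENNReal.ofReal_mul (Real.exp_pos _).le, Real.exp_add]

theorem level_mix {X : Type} [AddCommGroup X] [Module ℝ X] {f : X → ℝ≥0∞} (hf : LCf f)
    {l m : ℝ} (hl : 0 < l) (hm : 0 < m) (hlm : l + m = 1) {v w : ℝ} {x y : X}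
    (hx : ENNReal.ofReal (Real.exp v) ≤ f x) (hy : ENNReal.ofReal (Real.exp w) ≤ f y) :
    ENNReal.ofReal (Real.exp (l * v + m * w)) ≤ f (l • x + m • y) := by
  rw [← exp_mix]
  exact (mul_le_mul' (ENNReal.rpow_le_rpow hx hl.le) (ENNReal.rpow_le_rpow hy hm.le)).trans
    (hf l m hl hm hlm x y)

theorem level_convex {X : Type} [AddCommGroup X] [Module ℝ X] {f : X → ℝ≥0∞} (hf : LCf f)
    (v : ℝ) : Convex ℝ {x | ENNReal.ofReal (Real.exp v) ≤ f x} := by
  rw [convex_iff_forall_pos]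
  intro x hx y hy l m hl hm hlm
  have h := level_mix hf hl hm hlm hx hy
  rwa [← add_mul, hlm, one_mul] at h

theorem LCf.min {X : Type} [AddCommGroup X] [Module ℝ X] {f : X → ℝ≥0∞} (hf : LCf f)
    (K : ℝ≥0∞) : LCf fun x => min (f x) K := by
  intro l m hl hm hlm x y
  refine le_min ?_ ?_
  · exact (mul_le_mul' (ENNReal.rpow_le_rpow (min_le_left _ _) hl.le)
      (ENNReal.rpow_le_rpow (min_le_left _ _) hm.le)).trans (hf l m hl hm hlm x y)
  · refine (mul_le_mul' (ENNReal.rpow_le_rpow (min_le_right _ _) hl.le)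
      (ENNReal.rpow_le_rpow (min_le_right _ _) hm.le)).trans (le_of_eq ?_)
    rw [← ENNReal.rpow_add_of_nonneg _ _ hl.le hm.le, hlm, ENNReal.rpow_one]

/-- The finite case. -/
theorem ml_fin (ν : Measure Y) [ν.IsAddHaarMeasure] [Fintype κ] (a : κ → Y →ₗ[ℝ] ℝ)
    (ha : Sep a) (hY : finrank ℝ Y ≤ 3) {f : Y → ℝ≥0∞} (hf : Measurable f)
    (hft : ∀ x, f x ≠ ∞) (hfe : ∀ x, f (-x) = f x) (hfl : LCf f) {l m : ℝ} (hl : 0 < l)
    (hm : 0 < m) (hlm : l + m = 1) (σ τ : κ → ℝ) :
    (∫⁻ x in KS a fun u => Real.exp (σ u), f x ∂ν) ^ l *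
      (∫⁻ x in KS a fun u => Real.exp (τ u), f x ∂ν) ^ m ≤
      ∫⁻ x in KS a fun u => Real.exp (l * σ u + m * τ u), f x ∂ν := by
  have hKm : ∀ s : κ → ℝ, MeasurableSet (KS a fun u => Real.exp (s u)) := fun s =>
    (h_POS Y κ ν a _ ha fun u => Real.exp_pos _).1.isClosed.measurableSet
  rw [layer _ hf hft, layer _ hf hft, layer _ hf hft]
  refine Helper86.LP.pl_one (measurable_layer _ f) (measurable_layer _ f)
    (measurable_layer _ f) hl hm hlm fun v w => ?_
  have hms : ∀ v : ℝ, MeasurableSet {x | ENNReal.ofReal (Real.exp v) ≤ f x} := fun v =>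
    measurableSet_le measurable_const hf
  rw [ENNReal.mul_rpow_of_nonneg _ _ hl.le, ENNReal.mul_rpow_of_nonneg _ _ hm.le,
    mul_mul_mul_comm, exp_mix, Measure.restrict_apply (hms _), Measure.restrict_apply (hms _),
    Measure.restrict_apply (hms _)]
  refine mul_le_mul' le_rfl ?_
  rw [inter_comm _ (KS a fun u => Real.exp (σ u)), inter_comm _ (KS a fun u => Real.exp (τ u)),
    inter_comm _ (KS a fun u => Real.exp (l * σ u + m * τ u))]
  refine kc ν a ha hY (level_convex hfl v) (level_convex hfl w) ?_ ?_ hl hm hlm ?_ σ τ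
  · intro x hx
    change _ ≤ f (-x)
    rw [hfe]
    exact hx
  · intro x hx
    change _ ≤ f (-x)
    rw [hfe]
    exact hx
  · intro x hx y hy
    exact level_mix hfl hl hm hlm hx hy

theorem tendsto_min {α : Type} [MeasurableSpace α] (μ : Measure α) {f : α → ℝ≥0∞}
    (hf : Measurable f) :
    Tendsto (fun n : ℕ => ∫⁻ x, min (f x) (n : ℝ≥0∞) ∂μ) atTop (𝓝 (∫⁻ x, f x ∂μ)) := by
  apply lintegral_tendsto_of_tendsto_of_monotone
  · exact fun n => (hf.min measurable_const).aemeasurable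
  · refine Eventually.of_forall fun x => ?_
    intro a b hab
    exact min_le_min le_rfl (by exact_mod_cast hab)
  · refine Eventually.of_forall fun x => ?_
    have h1 : Tendsto (fun n : ℕ => (n : ℝ≥0∞)) atTop (𝓝 ∞) := ENNReal.tendsto_nat_nhds_top
    have h2 := (tendsto_const_nhds (x := f x)).min h1
    rwa [min_top_right] at h2

theorem ml (ν : Measure Y) [ν.IsAddHaarMeasure] [Fintype κ] (a : κ → Y →ₗ[ℝ] ℝ)
    (ha : Sep a) (hY : finrank ℝ Y ≤ 3) {f : Y → ℝ≥0∞} (hf : Measurable f)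
    (hfe : ∀ x, f (-x) = f x) (hfl : LCf f) {l m : ℝ} (hl : 0 < l)
    (hm : 0 < m) (hlm : l + m = 1) (σ τ : κ → ℝ) :
    (∫⁻ x in KS a fun u => Real.exp (σ u), f x ∂ν) ^ l *
      (∫⁻ x in KS a fun u => Real.exp (τ u), f x ∂ν) ^ m ≤
      ∫⁻ x in KS a fun u => Real.exp (l * σ u + m * τ u), f x ∂ν := by
  set F : ℝ≥0∞ := ∫⁻ x in KS a fun u => Real.exp (σ u), f x ∂ν with hF
  set G : ℝ≥0∞ := ∫⁻ x in KS a fun u => Real.exp (τ u), f x ∂ν with hG
  by_cases hF0 : F = 0
  · rw [hF0, ENNReal.zero_rpow_of_pos hl, zero_mul]; exact bot_le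
  by_cases hG0 : G = 0
  · rw [hG0, ENNReal.zero_rpow_of_pos hm, mul_zero]; exact bot_le
  have hfin : ∀ n : ℕ, (∫⁻ x in KS a fun u => Real.exp (σ u), min (f x) (n : ℝ≥0∞) ∂ν) ^ l *
      (∫⁻ x in KS a fun u => Real.exp (τ u), min (f x) (n : ℝ≥0∞) ∂ν) ^ m ≤
      ∫⁻ x in KS a fun u => Real.exp (l * σ u + m * τ u), f x ∂ν := by
    intro n
    refine (ml_fin ν a ha hY (hf.min measurable_const) (fun x => ?_) (fun x => ?_)
      (hfl.min _) hl hm hlm σ τ).trans (lintegral_mono fun x => min_le_left _ _)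
    · exact ne_top_of_le_ne_top (ENNReal.natCast_ne_top n) (min_le_right _ _)
    · simp only [hfe]
  have h1 := tendsto_min (ν.restrict (KS a fun u => Real.exp (σ u))) hf
  have h2 := tendsto_min (ν.restrict (KS a fun u => Real.exp (τ u))) hf
  rw [← hF] at h1
  rw [← hG] at h2
  have h3 := (ENNReal.continuous_rpow_const (y := l)).continuousAt.tendsto.comp h1
  have h4 := (ENNReal.continuous_rpow_const (y := m)).continuousAt.tendsto.comp h2
  have h5 := ENNReal.Tendsto.mul h3 (Or.inl ?_) h4 (Or.inl ?_)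
  · exact le_of_tendsto' h5 hfin
  · intro h
    exact hF0 ((ENNReal.rpow_eq_zero_iff_of_pos hl).1 h)
  · intro h
    exact hG0 ((ENNReal.rpow_eq_zero_iff_of_pos hm).1 h)

end Pool.Agent.Helper75.L3V
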