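import Pool.Agent.Helper75.L3V.FB
import Pool.Agent.Helper96.LB3.Cube

/-!
Log-concavity in three variables (MP_10bc19): the section functions of the `ℓ_p` balls and of the
cube, for every subspace, are log-concave in any three of the variables.
-/

open MeasureTheory Module Set Filter Topology
open scoped ENNReal Pointwise

namespace Pool.Agent.Helper75.L3V

open Pool.Agent.Helper96.LB3
open Pool.Agent.Helper86.LP (Phi LC sectionVolume IsLogConcave)

variable {n : ℕ}

theorem rpow_mix {p : ℝ} (hp : 1 ≤ p) {l m : ℝ} (hl : 0 < l) (hm : 0 < m) (hlm : l + m = 1)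
    (x y : ℝ) : |l * x + m * y| ^ p ≤ l * |x| ^ p + m * |y| ^ p := by
  have h1 : |l * x + m * y| ≤ l * |x| + m * |y| := by
    refine (abs_add_le _ _).trans (le_of_eq ?_)
    rw [abs_mul, abs_mul, abs_of_pos hl, abs_of_pos hm]
  refine (Real.rpow_le_rpow (abs_nonneg _) h1 (by linarith)).trans ?_
  have h2 := (convexOn_rpow hp).2 (mem_Ici.2 (abs_nonneg x)) (mem_Ici.2 (abs_nonneg y))
    hl.le hm.le hlm
  simpa only [smul_eq_mul] using h2

/-- The fixed factors. -/
noncomputable def psi (p : ℝ) (H : Submodule ℝ (EuclideanSpace ℝ (Fin n))) (S : Finset (Fin n))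
    (τ : Fin n → ℝ) (x : H) : ℝ≥0∞ :=
  ∏ i ∈ S, ENNReal.ofReal (Real.exp (-(Real.exp (τ i) * |(x : EuclideanSpace ℝ (Fin n)) i| ^ p)))

theorem measurable_psi (p : ℝ) (H : Submodule ℝ (EuclideanSpace ℝ (Fin n)))
    (S : Finset (Fin n)) (τ : Fin n → ℝ) : Measurable (psi p H S τ) := by
  unfold psi
  refine Finset.measurable_prod _ fun i _ => ?_
  exact ((Helper86.LP.measurable_coord H i p).const_mul _).neg.exp.ennreal_ofReal

theorem psi_neg (p : ℝ) (H : Submodule ℝ (EuclideanSpace ℝ (Fin n)))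
    (S : Finset (Fin n)) (τ : Fin n → ℝ) (x : H) : psi p H S τ (-x) = psi p H S τ x := by
  unfold psi
  refine Finset.prod_congr rfl fun i _ => ?_
  have : ((-x : H) : EuclideanSpace ℝ (Fin n)) i = -((x : EuclideanSpace ℝ (Fin n)) i) := rfl
  rw [this, abs_neg]

theorem psi_lc {p : ℝ} (hp : 1 ≤ p) (H : Submodule ℝ (EuclideanSpace ℝ (Fin n)))
    (S : Finset (Fin n)) (τ : Fin n → ℝ) : LCf (psi p H S τ) := by
  intro l m hl hm hlm x y
  unfold psi
  rw [← ENNReal.prod_rpow_of_nonneg hl.le, ← ENNReal.prod_rpow_of_nonneg hm.le,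
    ← Finset.prod_mul_distrib]
  refine Finset.prod_le_prod' fun i _ => ?_
  rw [exp_mix]
  apply ENNReal.ofReal_le_ofReal
  apply Real.exp_le_exp.2
  have h1 : ((l • x + m • y : H) : EuclideanSpace ℝ (Fin n)) i
      = l * (x : EuclideanSpace ℝ (Fin n)) i + m * (y : EuclideanSpace ℝ (Fin n)) i := rfl
  rw [h1]
  have h2 := rpow_mix hp hl hm hlm ((x : EuclideanSpace ℝ (Fin n)) i)
    ((y : EuclideanSpace ℝ (Fin n)) i)
  have h3 := mul_le_mul_of_nonneg_left h2 (Real.exp_pos (τ i)).le
  nlinarith [h3]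

/-- The moving functionals. -/
noncomputable def mv {k : ℕ} (H : Submodule ℝ (EuclideanSpace ℝ (Fin n))) (e : Fin k → Fin n) :
    Fin k → H →ₗ[ℝ] ℝ := fun j => co H (e j)

/-- The integral of the fixed factors over the moving box. -/
noncomputable def G {k : ℕ} (H : Submodule ℝ (EuclideanSpace ℝ (Fin n))) (e : Fin k → Fin n)
    (f : H → ℝ≥0∞) (s : Fin k → ℝ) : ℝ≥0∞ :=
  ∫⁻ x in KS (mv H e) fun j => Real.exp (s j), f x

theorem measurableSet_mv {k : ℕ} (H : Submodule ℝ (EuclideanSpace ℝ (Fin n)))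
    (e : Fin k → Fin n) : MeasurableSet {z : (Fin k → ℝ) × H |
      z.2 ∈ KS (mv H e) fun j => Real.exp (z.1 j)} := by
  have h : {z : (Fin k → ℝ) × H | z.2 ∈ KS (mv H e) fun j => Real.exp (z.1 j)}
      = ⋂ j, {z : (Fin k → ℝ) × H |
      |(z.2 : EuclideanSpace ℝ (Fin n)) (e j)| ≤ Real.exp (z.1 j)} := by
    ext z
    simp [KS, mv, co]
  rw [h]
  refine MeasurableSet.iInter fun i => ?_
  apply IsClosed.measurableSet
  apply isClosed_le
  · fun_prop
  · fun_prop

theorem measurable_G {k : ℕ} (H : Submodule ℝ (EuclideanSpace ℝ (Fin n))) (e : Fin k → Fin n)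
    {f : H → ℝ≥0∞} (hf : Measurable f) : Measurable (G H e f) := by
  have h1 : G H e f = fun s => ∫⁻ x : H, {z : (Fin k → ℝ) × H |
      z.2 ∈ KS (mv H e) fun j => Real.exp (z.1 j)}.indicator (fun z => f z.2) (s, x) := by
    funext s
    unfold G
    rw [← lintegral_indicator]
    · rfl
    · exact measurable_prodMk_left (measurableSet_mv H e)
  rw [h1]
  exact ((hf.comp measurable_snd).indicator (measurableSet_mv H e)).lintegral_prod_right'

theorem Phi_split {p : ℝ} (hp : 0 < p) (H : Submodule ℝ (EuclideanSpace ℝ (Fin n))) {k : ℕ}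
    (e : Fin k ↪ Fin n) (τ : Fin n → ℝ) :
    Phi p H τ = ∫⁻ s : Fin k → ℝ,
      (∏ j, ENNReal.ofReal (Helper58.LB3.rho p (s j + τ (e j) / p))) *
        G H e (psi p H (Finset.univ.map e)ᶜ τ) s := by
  have hfm : ∀ (i : Fin k) (y : ℝ), Measurable (fun v : ℝ =>
      if y ≤ Real.exp v then ENNReal.ofReal (Helper58.LB3.rho p (v + τ (e i) / p)) else 0) := by
    intro i y
    refine Measurable.ite (measurableSet_le measurable_const Real.measurable_exp) ?_
      measurable_const
    apply Measurable.ennreal_ofReal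
    exact (Helper58.LB3.continuous_rho p).measurable.comp (measurable_id.add_const _)
  have h1 : ∀ x : H, ∏ i, ENNReal.ofReal
      (Real.exp (-(Real.exp (τ i) * |(x : EuclideanSpace ℝ (Fin n)) i| ^ p)))
      = ∫⁻ s : Fin k → ℝ, (∏ j, (if |(x : EuclideanSpace ℝ (Fin n)) (e j)| ≤ Real.exp (s j) then
          ENNReal.ofReal (Helper58.LB3.rho p (s j + τ (e j) / p)) else 0)) *
            psi p H (Finset.univ.map e)ᶜ τ x := by
    intro x
    have hmm : Measurable (fun s : Fin k → ℝ =>
        ∏ j, (if |(x : EuclideanSpace ℝ (Fin n)) (e j)| ≤ Real.exp (s j) then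
          ENNReal.ofReal (Helper58.LB3.rho p (s j + τ (e j) / p)) else 0)) :=
      Finset.measurable_prod _ fun i _ => (hfm i _).comp (measurable_pi_apply i)
    rw [lintegral_mul_const _ hmm,
      Helper58.LB3.lintegral_prod_pi k (fun i v =>
        if |(x : EuclideanSpace ℝ (Fin n)) (e i)| ≤ Real.exp v then
          ENNReal.ofReal (Helper58.LB3.rho p (v + τ (e i) / p)) else 0) (fun i => hfm i _),
      ← Finset.prod_mul_prod_compl (Finset.univ.map e), Finset.prod_map]
    congr 1
    exact Finset.prod_congr rfl fun i _ =>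
      (Helper58.LB3.lint_fac hp (τ (e i)) _ (abs_nonneg _)).symm
  unfold Phi
  simp only [h1]
  rw [lintegral_lintegral_swap]
  · refine lintegral_congr fun s => ?_
    have h2 : ∀ x : H, (∏ j, (if |(x : EuclideanSpace ℝ (Fin n)) (e j)| ≤ Real.exp (s j) then
          ENNReal.ofReal (Helper58.LB3.rho p (s j + τ (e j) / p)) else 0)) *
            psi p H (Finset.univ.map e)ᶜ τ x
        = (∏ j, ENNReal.ofReal (Helper58.LB3.rho p (s j + τ (e j) / p))) *
          (KS (mv H e) fun j => Real.exp (s j)).indicator (psi p H (Finset.univ.map e)ᶜ τ) x := by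
      intro x
      rw [Finset.prod_ite_zero]
      have h3 : (∀ j ∈ Finset.univ, |(x : EuclideanSpace ℝ (Fin n)) (e j)| ≤ Real.exp (s j)) ↔
          x ∈ KS (mv H e) fun j => Real.exp (s j) := by
        simp [KS, mv, co]
      by_cases h4 : x ∈ KS (mv H e) fun j => Real.exp (s j)
      · rw [if_pos (h3.2 h4), indicator_of_mem h4]
      · rw [if_neg (fun h => h4 (h3.1 h)), indicator_of_notMem h4, zero_mul, mul_zero]
    simp only [h2]
    have hms : MeasurableSet (KS (mv H e) fun j => Real.exp (s j)) :=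
      measurable_prodMk_left (measurableSet_mv H e)
    rw [lintegral_const_mul _ ((measurable_psi p H _ τ).indicator hms),
      lintegral_indicator hms]
    rfl
  · apply Measurable.aemeasurable
    refine Measurable.mul (Finset.measurable_prod _ fun i _ => ?_)
      ((measurable_psi p H _ τ).comp measurable_fst)
    refine Measurable.ite ?_ ?_ measurable_const
    · apply IsClosed.measurableSet
      apply isClosed_le
      · fun_prop
      · fun_prop
    · apply Measurable.ennreal_ofReal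
      refine (Helper58.LB3.continuous_rho p).measurable.comp ?_
      fun_prop

theorem Phi_three {p : ℝ} (hp : 1 ≤ p) (H : Submodule ℝ (EuclideanSpace ℝ (Fin n))) {k : ℕ}
    (e : Fin k ↪ Fin n) (hk : finrank ℝ (LinearMap.range (LinearMap.pi (mv H e))) ≤ 3) {l m : ℝ} (hl : 0 < l) (hm : 0 < m) (hlm : l + m = 1)
    (a b : Fin n → ℝ) (hab : ∀ i ∈ (Finset.univ.map e)ᶜ, a i = b i) :
    Phi p H a ^ l * Phi p H b ^ m ≤ Phi p H (l • a + m • b) := by
  have hp0 : 0 < p := by linarith
  rw [Phi_split hp0 H e, Phi_split hp0 H e, Phi_split hp0 H e]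
  have hb : psi p H (Finset.univ.map e)ᶜ b = psi p H (Finset.univ.map e)ᶜ a := by
    funext x
    unfold psi
    exact Finset.prod_congr rfl fun i hi => by rw [hab i hi]
  have hc : psi p H (Finset.univ.map e)ᶜ (l • a + m • b) = psi p H (Finset.univ.map e)ᶜ a := by
    funext x
    unfold psi
    refine Finset.prod_congr rfl fun i hi => ?_
    have : (l • a + m • b) i = a i := by
      simp only [Pi.add_apply, Pi.smul_apply, smul_eq_mul]
      rw [← hab i hi, ← add_mul, hlm, one_mul]
    rw [this]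
  rw [hb, hc]
  have hGm := measurable_G H e (measurable_psi p H (Finset.univ.map e)ᶜ a)
  have hF : ∀ τ : Fin n → ℝ, Measurable fun s : Fin k → ℝ =>
      (∏ j, ENNReal.ofReal (Helper58.LB3.rho p (s j + τ (e j) / p))) *
        G H e (psi p H (Finset.univ.map e)ᶜ a) s := by
    intro τ
    refine Measurable.mul (Finset.measurable_prod _ fun i _ => ?_) hGm
    apply Measurable.ennreal_ofReal
    exact (Helper58.LB3.continuous_rho p).measurable.comp ((measurable_pi_apply i).add_const _)
  refine Helper67.LB.pl_pi k (hF a) (hF b) (hF _) hl hm hlm fun x y => ?_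
  rw [ENNReal.mul_rpow_of_nonneg _ _ hl.le, ENNReal.mul_rpow_of_nonneg _ _ hm.le,
    ← ENNReal.prod_rpow_of_nonneg hl.le, ← ENNReal.prod_rpow_of_nonneg hm.le,
    mul_mul_mul_comm, ← Finset.prod_mul_distrib]
  refine mul_le_mul' ?_ ?_
  · apply Finset.prod_le_prod'
    intro i _
    have h1 := Helper58.LB3.rho_lc hp0 hl hm hlm (x i + a (e i) / p) (y i + b (e i) / p)
    rw [ENNReal.ofReal_rpow_of_pos (Helper58.LB3.rho_pos hp0 _),
      ENNReal.ofReal_rpow_of_pos (Helper58.LB3.rho_pos hp0 _),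
      ← ENNReal.ofReal_mul (Real.rpow_nonneg (Helper58.LB3.rho_pos hp0 _).le _)]
    apply ENNReal.ofReal_le_ofReal
    refine h1.trans (le_of_eq ?_)
    congr 1
    simp only [Pi.add_apply, Pi.smul_apply, smul_eq_mul]
    ring
  · exact gl (volume : Measure H) (mv H e) hk
      (measurable_psi p H _ a) (psi_neg p H _ a) (psi_lc hp H _ a) hl hm hlm x y

theorem section_pos {p : ℝ} (hp : 1 ≤ p) (H : Submodule ℝ (EuclideanSpace ℝ (Fin n)))
    (t : Fin n → ℝ) : 0 < sectionVolume p H t := by
  have hp0 : 0 < p := by linarith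
  rw [Helper86.LP.volume_section hp]
  exact div_pos (ENNReal.toReal_pos (Helper86.LP.Phi_ne_zero H _) (Helper86.LP.Phi_ne_top H hp _))
    (Real.Gamma_pos_of_pos (by positivity))

theorem box_pos (H : Submodule ℝ (EuclideanSpace ℝ (Fin n))) (t : Fin n → ℝ) :
    0 < boxSectionVolume H t := by
  rw [box_eq]
  exact (h_POS H (Fin n) volume (co H) (fun u => Real.exp (t u)) (sep_co H)
    fun u => Real.exp_pos _).2.2.1

/-- The projection of `ℝⁿ` to the coordinates in `I`. -/
noncomputable def coordProj (I : Finset (Fin n)) : EuclideanSpace ℝ (Fin n) →ₗ[ℝ] (I → ℝ) :=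
  LinearMap.pi fun i => EuclideanSpace.projₗ (i : Fin n)

theorem rank_mv (H : Submodule ℝ (EuclideanSpace ℝ (Fin n))) (I : Finset (Fin n))
    (hI : finrank ℝ (H.map (coordProj I)) ≤ 3) :
    finrank ℝ (LinearMap.range (LinearMap.pi (mv H (I.orderEmbOfFin rfl)))) ≤ 3 := by
  have h1 : LinearMap.pi (mv H (I.orderEmbOfFin rfl)) =
      (LinearMap.funLeft ℝ ℝ fun j : Fin I.card =>
        (⟨I.orderEmbOfFin rfl j, Finset.orderEmbOfFin_mem I rfl j⟩ : I)).comp
        ((coordProj I).comp H.subtype) := by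
    ext x j
    rfl
  rw [h1, LinearMap.range_comp, LinearMap.range_comp, Submodule.range_subtype]
  exact (Submodule.finrank_map_le _ _).trans hI

theorem rank_section {p : ℝ} (hp : 1 ≤ p) (H : Submodule ℝ (EuclideanSpace ℝ (Fin n)))
    (I : Finset (Fin n)) (hI : finrank ℝ (H.map (coordProj I)) ≤ 3) (t₀ : Fin n → ℝ) :
    ConcaveOn ℝ {t : Fin n → ℝ | ∀ i ∉ I, t i = t₀ i}
      fun t => Real.log (sectionVolume p H t) := by
  have hp0 : 0 < p := by linarith
  have hG : 0 < Real.Gamma (finrank ℝ H / p + 1) := Real.Gamma_pos_of_pos (by positivity)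
  have hpos : ∀ τ, 0 < (Phi p H τ).toReal := fun τ =>
    ENNReal.toReal_pos (Helper86.LP.Phi_ne_zero H τ) (Helper86.LP.Phi_ne_top H hp τ)
  have hlog : ∀ t, Real.log (sectionVolume p H t)
      = Real.log (Phi p H (fun i => -(p * t i))).toReal
        - Real.log (Real.Gamma (finrank ℝ H / p + 1)) := by
    intro t
    rw [Helper86.LP.volume_section hp, Real.log_div (hpos _).ne' hG.ne']
  have hcv : Convex ℝ {t : Fin n → ℝ | ∀ i ∉ I, t i = t₀ i} := by
    intro s hs t ht l m _ _ hlm i hi
    simp only [Pi.add_apply, Pi.smul_apply, smul_eq_mul]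
    rw [hs i hi, ht i hi, ← add_mul, hlm, one_mul]
  refine ⟨hcv, ?_⟩
  intro s hs t ht l m hl hm hlm
  rcases hl.eq_or_lt with h0 | hl0
  · have hm1 : m = 1 := by linarith
    rw [← h0, hm1]
    simp
  rcases hm.eq_or_lt with h0 | hm0
  · have hl1 : l = 1 := by linarith
    rw [← h0, hl1]
    simp
  set e : Fin I.card ↪ Fin n := (I.orderEmbOfFin rfl).toEmbedding with he
  have hmap : Finset.univ.map e = I := Finset.map_orderEmbOfFin_univ I rfl
  have key := Phi_three hp H e (rank_mv H I hI) hl0 hm0 hlm (fun i => -(p * s i)) (fun i => -(p * t i)) (by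
    intro i hi
    rw [hmap, Finset.mem_compl] at hi
    rw [hs i hi, ht i hi])
  have e1 : (l • (fun i => -(p * s i)) + m • (fun i => -(p * t i)) : Fin n → ℝ)
      = fun i => -(p * (l • s + m • t) i) := by
    funext i
    simp only [Pi.add_apply, Pi.smul_apply, smul_eq_mul]
    ring
  rw [e1] at key
  rw [← ENNReal.toReal_le_toReal (ENNReal.mul_ne_top
      (ENNReal.rpow_ne_top_of_nonneg hl0.le (Helper86.LP.Phi_ne_top H hp _))
      (ENNReal.rpow_ne_top_of_nonneg hm0.le (Helper86.LP.Phi_ne_top H hp _)))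
      (Helper86.LP.Phi_ne_top H hp _),
      ENNReal.toReal_mul, ← ENNReal.toReal_rpow, ← ENNReal.toReal_rpow,
      ← Real.log_le_log_iff (mul_pos (Real.rpow_pos_of_pos (hpos _) _)
        (Real.rpow_pos_of_pos (hpos _) _)) (hpos _),
      Real.log_mul (Real.rpow_pos_of_pos (hpos _) _).ne' (Real.rpow_pos_of_pos (hpos _) _).ne',
      Real.log_rpow (hpos _), Real.log_rpow (hpos _)] at key
  simp only [hlog, smul_eq_mul]
  have hm' : m = 1 - l := by linarith
  rw [hm'] at key ⊢
  linarith

/-- The box version. -/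
theorem rank_box (H : Submodule ℝ (EuclideanSpace ℝ (Fin n)))
    (I : Finset (Fin n)) (hI : finrank ℝ (H.map (coordProj I)) ≤ 3) (t₀ : Fin n → ℝ) :
    ConcaveOn ℝ {t : Fin n → ℝ | ∀ i ∉ I, t i = t₀ i}
      fun t => Real.log (boxSectionVolume H t) := by
  have hcv : Convex ℝ {t : Fin n → ℝ | ∀ i ∉ I, t i = t₀ i} := by
    intro s hs t ht l m _ _ hlm i hi
    simp only [Pi.add_apply, Pi.smul_apply, smul_eq_mul]
    rw [hs i hi, ht i hi, ← add_mul, hlm, one_mul]
  refine ⟨hcv, ?_⟩
  set D : Set H := {x : H | ∀ i ∉ I, |(x : EuclideanSpace ℝ (Fin n)) i| ≤ Real.exp (t₀ i)}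
    with hD
  have hDm : MeasurableSet D := by
    have : D = ⋂ i, ⋂ (_ : i ∉ I), {x : H | |(x : EuclideanSpace ℝ (Fin n)) i|
        ≤ Real.exp (t₀ i)} := by
      ext x; simp [hD]
    rw [this]
    refine MeasurableSet.iInter fun i => MeasurableSet.iInter fun _ => ?_
    apply IsClosed.measurableSet
    apply isClosed_le
    · fun_prop
    · fun_prop
  set f : H → ℝ≥0∞ := D.indicator fun _ => 1 with hf
  have hfm : Measurable f := measurable_const.indicator hDm
  have hfe : ∀ x, f (-x) = f x := by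
    intro x
    have : -x ∈ D ↔ x ∈ D := by
      simp only [hD, Set.mem_ofPred_eq]
      refine forall_congr' fun i => forall_congr' fun _ => ?_
      have : ((-x : H) : EuclideanSpace ℝ (Fin n)) i = -((x : EuclideanSpace ℝ (Fin n)) i) := rfl
      rw [this, abs_neg]
    by_cases h : x ∈ D
    · rw [hf, indicator_of_mem h, indicator_of_mem (this.2 h)]
    · rw [hf, indicator_of_notMem h, indicator_of_notMem (fun h' => h (this.1 h'))]
  have hfl : LCf f := by
    intro l m hl hm hlm x y
    by_cases hx : x ∈ D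
    · by_cases hy : y ∈ D
      · have : l • x + m • y ∈ D := by
          intro i hi
          have h1 : ((l • x + m • y : H) : EuclideanSpace ℝ (Fin n)) i
            = l * (x : EuclideanSpace ℝ (Fin n)) i + m * (y : EuclideanSpace ℝ (Fin n)) i := rfl
          rw [h1]
          refine (abs_add_le _ _).trans ?_
          rw [abs_mul, abs_mul, abs_of_pos hl, abs_of_pos hm]
          have h2 := mul_le_mul_of_nonneg_left (hx i hi) hl.le
          have h3 := mul_le_mul_of_nonneg_left (hy i hi) hm.le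
          calc _ ≤ l * Real.exp (t₀ i) + m * Real.exp (t₀ i) := add_le_add h2 h3
            _ = Real.exp (t₀ i) := by rw [← add_mul, hlm, one_mul]
        rw [hf, indicator_of_mem hx, indicator_of_mem hy, indicator_of_mem this]
        simp
      · rw [hf, indicator_of_notMem hy, ENNReal.zero_rpow_of_pos hm, mul_zero]
        exact bot_le
    · rw [hf, indicator_of_notMem hx, ENNReal.zero_rpow_of_pos hl, zero_mul]
      exact bot_le
  have hval : ∀ s : Fin n → ℝ, (∀ i ∉ I, s i = t₀ i) → boxSectionVolume H s =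
      (∫⁻ x in KS (mv H (I.orderEmbOfFin rfl)) (fun j => Real.exp (s (I.orderEmbOfFin rfl j))),
        f x).toReal := by
    intro s hs
    rw [box_eq]
    unfold VS Measure.real
    congr 1
    rw [hf, lintegral_indicator hDm, setLIntegral_one, Measure.restrict_apply hDm]
    congr 1
    ext x
    constructor
    · intro hx
      refine ⟨fun i hi => ?_, fun j => hx _⟩
      have h5 : |(x : EuclideanSpace ℝ (Fin n)) i| ≤ Real.exp (s i) := hx i
      rw [hs i hi] at h5
      exact h5
    · rintro ⟨h1, h2⟩ i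
      by_cases hi : i ∈ I
      · have : i ∈ range (I.orderEmbOfFin rfl) := by
          rw [Finset.range_orderEmbOfFin]
          exact hi
        obtain ⟨j, rfl⟩ := this
        exact h2 j
      · have h5 : |(x : EuclideanSpace ℝ (Fin n)) i| ≤ Real.exp (t₀ i) := h1 i hi
        rw [← hs i hi] at h5
        exact h5
  have hpos : ∀ t : Fin n → ℝ, 0 < boxSectionVolume H t := box_pos H
  intro s hs t ht l m hl hm hlm
  rcases hl.eq_or_lt with h0 | hl0
  · have hm1 : m = 1 := by linarith
    rw [← h0, hm1]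
    simp
  rcases hm.eq_or_lt with h0 | hm0
  · have hl1 : l = 1 := by linarith
    rw [← h0, hl1]
    simp
  have hst := hcv hs ht hl hm hlm
  have key := gl (volume : Measure H) (mv H (I.orderEmbOfFin rfl)) (rank_mv H I hI)
    hfm hfe hfl hl0 hm0 hlm
    (fun j => s (I.orderEmbOfFin rfl j)) (fun j => t (I.orderEmbOfFin rfl j))
  have hne : ∀ r : Fin n → ℝ, (∀ i ∉ I, r i = t₀ i) →
      (∫⁻ x in KS (mv H (I.orderEmbOfFin rfl)) (fun j => Real.exp (r (I.orderEmbOfFin rfl j))),
        f x) ≠ ∞ := by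
    intro r hr h
    have := hpos r
    rw [hval r hr, h] at this
    simp at this
  have key2 := (ENNReal.toReal_le_toReal (ENNReal.mul_ne_top
    (ENNReal.rpow_ne_top_of_nonneg hl0.le (hne s hs))
    (ENNReal.rpow_ne_top_of_nonneg hm0.le (hne t ht))) (hne _ hst)).2 key
  rw [ENNReal.toReal_mul, ← ENNReal.toReal_rpow, ← ENNReal.toReal_rpow, ← hval s hs,
    ← hval t ht, ← hval _ hst] at key2
  have h3 := Real.log_le_log (mul_pos (Real.rpow_pos_of_pos (hpos s) l)
    (Real.rpow_pos_of_pos (hpos t) m)) key2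
  rw [Real.log_mul (Real.rpow_pos_of_pos (hpos s) l).ne' (Real.rpow_pos_of_pos (hpos t) m).ne',
    Real.log_rpow (hpos s), Real.log_rpow (hpos t)] at h3
  simpa [smul_eq_mul] using h3

theorem rank_le_of_card (H : Submodule ℝ (EuclideanSpace ℝ (Fin n))) (I : Finset (Fin n))
    (hI : I.card ≤ 3) : finrank ℝ (H.map (coordProj I)) ≤ 3 := by
  refine (Submodule.finrank_le _).trans ?_
  rw [Module.finrank_fintype_fun_eq_card, Fintype.card_coe]
  exact hI

theorem rank_le_of_dim (H : Submodule ℝ (EuclideanSpace ℝ (Fin n))) (I : Finset (Fin n))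
    (hH : finrank ℝ H ≤ 3) : finrank ℝ (H.map (coordProj I)) ≤ 3 :=
  (Submodule.finrank_map_le _ _).trans hH

theorem three_section {p : ℝ} (hp : 1 ≤ p) (H : Submodule ℝ (EuclideanSpace ℝ (Fin n)))
    (I : Finset (Fin n)) (hI : I.card ≤ 3) (t₀ : Fin n → ℝ) :
    ConcaveOn ℝ {t : Fin n → ℝ | ∀ i ∉ I, t i = t₀ i}
      fun t => Real.log (sectionVolume p H t) :=
  rank_section hp H I (rank_le_of_card H I hI) t₀

theorem three_box (H : Submodule ℝ (EuclideanSpace ℝ (Fin n)))
    (I : Finset (Fin n)) (hI : I.card ≤ 3) (t₀ : Fin n → ℝ) :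
    ConcaveOn ℝ {t : Fin n → ℝ | ∀ i ∉ I, t i = t₀ i}
      fun t => Real.log (boxSectionVolume H t) :=
  rank_box H I (rank_le_of_card H I hI) t₀

end Pool.Agent.Helper75.L3V
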